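import Pool.Agent.Helper26.AL.GoalsB

/-!
Project AL (MP_af6c86_pr), packet CNX (helper85).
-/

namespace Pool.Agent.Helper85.AL

open Finset Pool.Agent.Helper26.AF Pool.Agent.Helper26.AL

theorem card_split {H : Type} [Finite H] (P Q : H → Prop) :
    Nat.card {x // P x ∧ Q x} + Nat.card {x // P x ∧ ¬ Q x} = Nat.card {x // P x} := by
  classical
  haveI := Fintype.ofFinite H
  rw [Nat.card_eq_fintype_card, Nat.card_eq_fintype_card, Nat.card_eq_fintype_card,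
    Fintype.card_subtype, Fintype.card_subtype, Fintype.card_subtype, ← Finset.filter_filter,
    ← Finset.filter_filter, Finset.card_filter_add_card_filter_not]

theorem card_mono {H : Type} [Finite H] (P Q : H → Prop) (h : ∀ x, P x → Q x) :
    Nat.card {x // P x} ≤ Nat.card {x // Q x} :=
  Nat.card_le_card_of_injective (fun x : {x // P x} => (⟨x.1, h x.1 x.2⟩ : {x // Q x}))
    fun a b hab => Subtype.ext (congrArg (fun z : {x // Q x} => z.1) hab)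

/-- a subset of the same cardinality is everything. -/
theorem eq_of_card {H : Type} [Finite H] (P Q : H → Prop) (h : ∀ x, P x → Q x)
    (hc : Nat.card {x // Q x} ≤ Nat.card {x // P x}) (x : H) (hx : Q x) : P x := by
  classical
  haveI := Fintype.ofFinite H
  rw [Nat.card_eq_fintype_card, Nat.card_eq_fintype_card, Fintype.card_subtype,
    Fintype.card_subtype] at hc
  have hs : Finset.univ.filter P ⊆ Finset.univ.filter Q := fun y hy => by
    rw [Finset.mem_filter] at hy ⊢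
    exact ⟨hy.1, h y hy.2⟩
  have := Finset.eq_of_subset_of_card_le hs hc
  have hx' : x ∈ Finset.univ.filter Q := Finset.mem_filter.mpr ⟨Finset.mem_univ _, hx⟩
  rw [← this] at hx'
  exact (Finset.mem_filter.mp hx').2

theorem ep_iff (o : Option ℕ) {r N : ℕ} (τ : Equiv.Perm (KX r ⊕ Fin N × Bool))
    (κ : Equiv.Perm (KX r))
    (h1 : ∀ σ : Equiv.Perm (KX r), orb (Equiv.sumCongr σ (Equiv.prodCongr (Equiv.refl (Fin N))
          (Equiv.swap false true)) * τ) = orb (σ * κ))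
    (h2 : cmq τ vt = cmq κ Prod.fst) : EP o τ ↔ EX o κ := by
  unfold EP EX EmbX
  rw [h2]
  simp only [h1]

theorem goalCNX (hSUX : StmtSUX) (hNPC : StmtNPC) (hPMC : StmtPMC) : StmtCNX := by
  intro o r N hr
  obtain ⟨S, hS1, hS2, hS3⟩ := hSUX r hr (fun κ => IsPair κ ∧ EX o κ) (fun κ h => h.1) N
  obtain ⟨T, hT1, hT2, hT3⟩ := hSUX r hr (fun κ => IsPair κ ∧ ¬ EX o κ) (fun κ h => h.1) N
  have hSE : ∀ τ ∈ S, IsPair τ ∧ NoPure τ ∧ EP o τ := fun τ hτ => by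
    obtain ⟨a, b, κ, hκ, c, d⟩ := hS3 τ hτ
    exact ⟨a, b, (ep_iff o τ κ c d).mpr hκ.2⟩
  have hTE : ∀ τ ∈ T, IsPair τ ∧ NoPure τ ∧ ¬ EP o τ := fun τ hτ => by
    obtain ⟨a, b, κ, hκ, c, d⟩ := hT3 τ hτ
    exact ⟨a, b, fun h => hκ.2 ((ep_iff o τ κ c d).mp h)⟩
  have hcardX : Fintype.card (KX r) = 2 * (3 * r) := by
    rw [Fintype.card_prod, Fintype.card_fin, Fintype.card_fin]
    ring
  have hK := card_split (H := Equiv.Perm (KX r)) IsPair (EX o)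
  rw [hPMC (KX r) (3 * r) hcardX] at hK
  have e6 : 2 * (3 * r) = 6 * r := by ring
  rw [e6] at hK
  have hN : Nat.card {τ : Equiv.Perm (KX r ⊕ Fin N × Bool) // IsPair τ ∧ NoPure τ}
      = Nat.doubleFactorial (6 * r - 1) * ∏ i ∈ range N, (6 * r + 2 * i) := by
    have := hNPC (KX r) (Fin N) (3 * r) hcardX
    rw [Fintype.card_fin, e6] at this
    exact this
  have hsplit := card_split (H := Equiv.Perm (KX r ⊕ Fin N × Bool))
    (fun τ => IsPair τ ∧ NoPure τ) (EP o)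
  rw [hN, ← hK, add_mul] at hsplit
  have hSle : Nat.card S ≤ Nat.card {τ : Equiv.Perm (KX r ⊕ Fin N × Bool) //
      (IsPair τ ∧ NoPure τ) ∧ EP o τ} :=
    card_mono (fun τ => τ ∈ S) _ fun τ hτ => ⟨⟨(hSE τ hτ).1, (hSE τ hτ).2.1⟩, (hSE τ hτ).2.2⟩
  have hTle : Nat.card T ≤ Nat.card {τ : Equiv.Perm (KX r ⊕ Fin N × Bool) //
      (IsPair τ ∧ NoPure τ) ∧ ¬ EP o τ} :=
    card_mono (fun τ => τ ∈ T) _ fun τ hτ => ⟨⟨(hTE τ hτ).1, (hTE τ hτ).2.1⟩, (hTE τ hτ).2.2⟩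
  have hSeq : Nat.card {τ : Equiv.Perm (KX r ⊕ Fin N × Bool) //
      (IsPair τ ∧ NoPure τ) ∧ EP o τ} ≤ Nat.card S := by
    rw [hS1]
    rw [hT1] at hTle
    omega
  have hTeq : Nat.card {τ : Equiv.Perm (KX r ⊕ Fin N × Bool) //
      (IsPair τ ∧ NoPure τ) ∧ ¬ EP o τ} ≤ Nat.card T := by
    rw [hT1]
    rw [hS1] at hSle
    omega
  constructor
  · rw [← hS1]
    have := le_antisymm hSeq hSle
    rw [← this]
    refine Nat.card_congr (Equiv.subtypeEquivRight fun τ => ?_)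
    rw [and_assoc]
  · have key := card_split (H := Equiv.Perm (KX r ⊕ Fin N × Bool))
      (fun τ => IsPair τ ∧ NoPure τ ∧ Short τ) (EP o)
    rw [← key]
    have k1 : Nat.card {τ : Equiv.Perm (KX r ⊕ Fin N × Bool) //
        (IsPair τ ∧ NoPure τ ∧ Short τ) ∧ EP o τ} ≤
        Nat.card {τ : Equiv.Perm (KX r ⊕ Fin N × Bool) // τ ∈ S ∧ Short τ} := by
      refine card_mono _ _ fun τ hτ => ⟨?_, hτ.1.2.2⟩
      exact eq_of_card (fun τ => τ ∈ S) _
        (fun τ hτ => ⟨⟨(hSE τ hτ).1, (hSE τ hτ).2.1⟩, (hSE τ hτ).2.2⟩) hSeq τ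
        ⟨⟨hτ.1.1, hτ.1.2.1⟩, hτ.2⟩
    have k2 : Nat.card {τ : Equiv.Perm (KX r ⊕ Fin N × Bool) //
        (IsPair τ ∧ NoPure τ ∧ Short τ) ∧ ¬ EP o τ} ≤
        Nat.card {τ : Equiv.Perm (KX r ⊕ Fin N × Bool) // τ ∈ T ∧ Short τ} := by
      refine card_mono _ _ fun τ hτ => ⟨?_, hτ.1.2.2⟩
      exact eq_of_card (fun τ => τ ∈ T) _
        (fun τ hτ => ⟨⟨(hTE τ hτ).1, (hTE τ hτ).2.1⟩, (hTE τ hτ).2.2⟩) hTeq τ
        ⟨⟨hτ.1.1, hτ.1.2.1⟩, hτ.2⟩
    refine (add_le_add (k1.trans hS2) (k2.trans hT2)).trans ?_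
    rw [← hK]
    exact le_of_eq (by ring)

end Pool.Agent.Helper85.AL
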