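import Pool.Agent.Helper26.AL.GoalsA
import Pool.Agent.Helper26.AL.GoalsB
import Pool.Agent.Helper26.AL.GoalsC

/-!
Project AL (MP_af6c86_pr), packet MAS (helper85).
-/

namespace Pool.Agent.Helper85.AL

open Finset Filter Topology Pool.Agent.Helper26.AF Pool.Agent.Helper26.AL

theorem ne_zero' (G : SimpleGraph (Fin 0)) : ne G = 0 := by
  unfold ne
  rw [Nat.card_eq_zero]
  left
  refine ⟨fun e => ?_⟩
  obtain ⟨e, he⟩ := e
  induction e with
  | _ x y => exact x.elim0

theorem cc_zero' (G : SimpleGraph (Fin 0)) : cc G = 0 := by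
  unfold cc
  rw [Nat.card_eq_zero]
  left
  refine ⟨fun c => ?_⟩
  induction c using SimpleGraph.ConnectedComponent.ind with
  | _ v => exact v.elim0

theorem cxg_zero' (G : SimpleGraph (Fin 0)) : CXG G := by
  rintro Q ⟨c, hc⟩
  exfalso
  induction c using SimpleGraph.ConnectedComponent.ind with
  | _ v => exact v.elim0

theorem emb_zero' (G : SimpleGraph (Fin 0)) (g : ℕ) : Embeds G g := by
  refine ⟨1, ⟨fun d => rfl, fun d => d.fst.elim0⟩, ?_⟩
  have h1 := cc_zero' G
  unfold cc at h1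
  rw [h1, ne_zero' G]
  omega

theorem co_zero_zero (g : ℕ) : co (some g) 0 0 = 1 := by
  unfold co
  haveI : Unique {G : SimpleGraph (Fin 0) // CXG G ∧ ne G = 0 + 0 ∧ EO (some g) G} :=
    { default := ⟨⊥, cxg_zero' _, ne_zero' _, fun g' _ => emb_zero' _ g'⟩
      uniq := fun G => Subtype.ext (by
        ext x
        exact x.elim0) }
  exact Nat.card_unique

theorem co_zero (hCXN : StmtCXN) (o : Option ℕ) (j : ℕ) (hj : j ≠ 0) : co o j 0 = 0 := by
  unfold co
  rw [Nat.card_eq_zero]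
  left
  refine ⟨fun G => ?_⟩
  obtain ⟨G, h1, h2, _⟩ := G
  have h := (hCXN (Fin j) G h1).2.1 ⟨⟨0, by omega⟩⟩
  rw [Fintype.card_fin] at h
  omega

theorem ds_zero (hCXN : StmtCXN) (m : ℕ) (hm : m ≠ 0) : ds m 0 = 0 := by
  unfold ds
  refine Finset.sum_eq_zero fun G _ => ?_
  rw [if_neg]
  rintro ⟨h1, h2⟩
  have h := (hCXN (Fin m) G h1).2.1 ⟨⟨0, by omega⟩⟩
  rw [Fintype.card_fin] at h
  omega

theorem ds_zero_zero : ds 0 0 = 1 := by
  unfold ds
  haveI : Unique (SimpleGraph (Fin 0)) :=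
    { default := ⊥
      uniq := fun G => by
        ext x
        exact x.elim0 }
  rw [Fintype.sum_unique, if_pos ⟨cxg_zero' _, ne_zero' _⟩, cc_zero', pow_zero]

/-- the decomposition of `mg`. -/
theorem mg_eq (hMGE : StmtMGE) (hCXN : StmtCXN) (g k r : ℕ) (hr : 1 ≤ r) :
    mg g k r = ds k r + (co (some g) k r : ℝ) + ∑ i ∈ Ico 1 r,
      ∑ m ∈ range (k + 1), (k.choose m : ℝ) * (co (some g) m i : ℝ) * ds (k - m) (r - i) := by
  have hS : ∀ i, ∑ j ∈ range (k + 1), (k.choose j : ℝ) *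
      ((co (some g) j i : ℝ) * ds (k - j) (r - i)) = ∑ m ∈ range (k + 1), (k.choose m : ℝ) *
        (co (some g) m i : ℝ) * ds (k - m) (r - i) := fun i =>
    Finset.sum_congr rfl fun j _ => (mul_assoc _ _ _).symm
  rw [hMGE]
  simp only [Finset.mul_sum]
  rw [Finset.sum_comm, Finset.sum_range_succ, Finset.range_eq_Ico,
    Finset.sum_eq_sum_Ico_succ_bot (by omega : 0 < r)]
  simp only [hS, zero_add]
  have h0 : ∑ m ∈ range (k + 1), (k.choose m : ℝ) * (co (some g) m 0 : ℝ) * ds (k - m) (r - 0)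
      = ds k r := by
    rw [Finset.sum_eq_single 0]
    · rw [co_zero_zero, Nat.choose_zero_right, Nat.sub_zero, Nat.sub_zero, Nat.cast_one, one_mul,
        one_mul]
    · intro m _ hm
      rw [co_zero hCXN _ m hm, Nat.cast_zero, mul_zero, zero_mul]
    · intro h
      exact absurd (Finset.mem_range.mpr (Nat.succ_pos k)) h
  have h1 : ∑ m ∈ range (k + 1), (k.choose m : ℝ) * (co (some g) m r : ℝ) * ds (k - m) (r - r)
      = (co (some g) k r : ℝ) := by
    rw [Finset.sum_eq_single k]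
    · rw [Nat.choose_self, Nat.sub_self, Nat.sub_self, ds_zero_zero, Nat.cast_one, one_mul,
        mul_one]
    · intro m hm hmk
      have := Finset.mem_range.mp hm
      rw [Nat.sub_self, ds_zero hCXN (k - m) (by omega), mul_zero]
    · intro h
      exact absurd (Finset.mem_range.mpr (Nat.lt_succ_self k)) h
  rw [h0, h1]
  ring

theorem AS.add' {f h : ℕ → ℝ} {r : ℕ} {α β : ℝ} (hf : AS f r α) (hh : AS h r β) :
    AS (fun k => f k + h k) r (α + β) := by
  unfold AS at *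
  simp only [add_div]
  exact hf.add hh

theorem AS.sum' {f : ℕ → ℕ → ℝ} {r : ℕ} {α : ℕ → ℝ} (S : Finset ℕ)
    (hf : ∀ i ∈ S, AS (f i) r (α i)) : AS (fun k => ∑ i ∈ S, f i k) r (∑ i ∈ S, α i) := by
  unfold AS at *
  simp only [Finset.sum_div]
  exact tendsto_finset_sum S hf

theorem dd_zero (h : ee 0 = 1) : dd 0 = 1 := by
  unfold dd
  rw [PowerSeries.coeff_zero_eq_constantCoeff_apply, PowerSeries.constantCoeff_inv,
    ← PowerSeries.coeff_zero_eq_constantCoeff_apply, PowerSeries.coeff_mk, h, inv_one]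

theorem bb_eq (hEEQ : StmtEEQ) (g r : ℕ) (hr : 1 ≤ r) :
    bb g r = dd r + eg g r + ∑ i ∈ Ico 1 r, eg g i * dd (r - i) := by
  unfold bb
  rw [PowerSeries.coeff_mul, Finset.Nat.sum_antidiagonal_eq_sum_range_succ
    (fun i j => PowerSeries.coeff i (PowerSeries.mk (eg g)) *
      PowerSeries.coeff j (PowerSeries.mk ee)⁻¹) r]
  simp only [PowerSeries.coeff_mk]
  rw [Finset.sum_range_succ, Finset.range_eq_Ico,
    Finset.sum_eq_sum_Ico_succ_bot (by omega : 0 < r)]
  rw [hEEQ.2.2.2 g, Nat.sub_zero, Nat.sub_self]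
  have := dd_zero hEEQ.2.2.1
  unfold dd at *
  rw [this, zero_add]
  ring

theorem goalMAS (hMGE : StmtMGE) (hEEQ : StmtEEQ) (hCXN : StmtCXN) (hCNV : StmtCNV)
    (hCAS : StmtCAS) (hDAS : StmtDAS) : StmtMAS := by
  intro g r hr
  have h1 : (fun k => mg g k r) = fun k => ds k r + (co (some g) k r : ℝ) + ∑ i ∈ Ico 1 r,
      ∑ m ∈ range (k + 1), (k.choose m : ℝ) * (co (some g) m i : ℝ) * ds (k - m) (r - i) :=
    funext fun k => mg_eq hMGE hCXN g k r hr
  rw [h1, bb_eq hEEQ g r hr]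
  refine AS.add' (AS.add' (hDAS r hr) ?_) (AS.sum' _ fun i hi => ?_)
  · have := hCAS (some g) r hr
    rw [hEEQ.2.1] at this
    exact this
  · obtain ⟨hi1, hi2⟩ := Finset.mem_Ico.mp hi
    have h := hCNV i (r - i) (fun k => (co (some g) k i : ℝ)) (fun k => ds k (r - i)) (eo (some g) i)
      (dd (r - i)) hi1 (by omega) (hCAS (some g) i hi1) (hDAS (r - i) (by omega))
    rw [hEEQ.2.1] at h
    have e : i + (r - i) = r := by omega
    rw [e] at h
    exact h

end Pool.Agent.Helper85.AL
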